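import Pool.Agent.Work.MP_d4a4cd_h25.PairE

/-!
# MP_d4a4cd_co: all diagonals `k = n - j` of the triangle of lucky cars

`a n k` is the number of Stirling permutations of order `n` with exactly `k` lucky cars
(definitions in `Pool/Agent/Work/MP_d4a4cd_co_h99/Defs.lean`). For every fixed `j ≥ 1` the numbers
`a n (n - j)` are given for all `n ≥ 1` by a closed formula: a rational combination of the
coefficients of the powers `(1 - 4 x) ^ ((k + 1 - 5 j) / 2)` with `0 ≤ k < 7 j`.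
-/

set_option autoImplicit false

namespace Pool.Agent.Results.MP_d4a4cd_co.AllDiagonals

open Finset Pool.Agent.LuckyStirling

/-- For every `j ≥ 1` there are rational numbers `b 0, …, b (7 j - 1)` with
`a(n, n - j) = ∑ b k [x ^ n] (1 - 4 x) ^ ((k + 1 - 5 j) / 2)` for all `n ≥ 1`, and they are
determined by the values for `n < 7 j`. -/
theorem result (j : ℕ) (hj : 1 ≤ j) : ∃ b : ℕ → ℚ,
    ∑ k ∈ range (7 * j), b k = 0 ∧
    (∀ n : ℕ, 1 ≤ n → (a n (n - j) : ℚ) =
      ∑ k ∈ range (7 * j), b k * ((-4) ^ n * Ring.choose (((k : ℚ) + 1 - 5 * j) / 2) n)) ∧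
    ∀ b' : ℕ → ℚ, ∑ k ∈ range (7 * j), b' k = 0 →
      (∀ n : ℕ, 1 ≤ n → n < 7 * j → (a n (n - j) : ℚ) =
        ∑ k ∈ range (7 * j), b' k * ((-4) ^ n * Ring.choose (((k : ℚ) + 1 - 5 * j) / 2) n)) →
      ∀ k < 7 * j, b' k = b k := by
  have h0 : ∀ b : ℕ → ℚ, Pool.Agent.LuckyDiag.fn j b 0 = ∑ k ∈ range (7 * j), b k := by
    intro b
    unfold Pool.Agent.LuckyDiag.fn
    exact sum_congr rfl fun k _ => by simp
  obtain ⟨b, h1, h2, h3⟩ := Pool.Agent.LuckyDiag.diag_exists_unique2 j hj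
  refine ⟨b, ?_, h2, fun b' h4 h5 => h3 b' ?_ h5⟩
  · rw [← h0]
    exact h1
  · rw [h0]
    exact h4

end Pool.Agent.Results.MP_d4a4cd_co.AllDiagonals
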