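import Pool.Agent.Work.MP_d4a4cd_h15.FIN
import Pool.Agent.Work.MP_d4a4cd_h15.B_LT1
import Pool.Agent.Work.MP_d4a4cd_h15.LT2b
import Pool.Agent.Work.MP_d4a4cd_h15.B_LT3
import Pool.Agent.Work.MP_d4a4cd_h15.B_LT4
import Pool.Agent.Work.MP_d4a4cd_h15.B_LT5
import Pool.Agent.Work.MP_d4a4cd_h15.LT6b
import Pool.Agent.Work.MP_d4a4cd_h15.LT7b
import Pool.Agent.Work.MP_d4a4cd_h15.B_LT8
import Pool.Agent.Work.MP_d4a4cd_h15.B_LT9

/-!
# MP_d4a4cd_co: the column `k = 2` of the triangle of lucky cars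

`a n k` is the number of Stirling permutations of order `n` with exactly `k` lucky cars
(definitions in `Pool/Agent/Work/MP_d4a4cd_co_h99/Defs.lean`), and
`dp x k = x (x + 2) ... (x + 2 k - 2)` (definition in
`Pool/Agent/Work/MP_d4a4cd_h15/FIN.lean`). The values for `n = 3, 4, 5, 6` are
`8, 36, 194, 1228`.
-/

set_option autoImplicit false

namespace Pool.Agent.Results.MP_d4a4cd_co.ColumnTwo

open Finset
open Pool.Agent.LuckyStirling (a)
open Pool.Agent.LuckyTwo

/-- An explicit formula for the number of Stirling permutations of order `n` with exactly two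
lucky cars. -/
theorem result (n : ℕ) (hn : 2 ≤ n) :
    (a n 2 : ℚ) = ∑ m ∈ Icc 1 (n - 1), ((m - 1).factorial : ℚ) *
      (∑ b ∈ range (m + 1), ((n - 1 + b).factorial : ℚ) / (m + b).factorial -
        ∑ k ∈ range m, ∑ x ∈ range ((n - 1 - m) / 2), ((n - 2 - m - 2 * x : ℕ) : ℚ) *
          dp (m + k + 1) (x + 1) *
          (((n - 1 + k).factorial : ℚ) / (m + k + 2 * x + 2).factorial) *
          (((dp (m - k) (x + 1) : ℚ) + dp (m - k - 1) (x + 1) + dp 1 x) / (2 * x + 2))) := by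
  have h5 := p_LT5 Alt2.LT2 p_LT3
  exact two_lucky stmt_LT1 h5 (Alt6.LT6 p_LT4 h5) Alt7.LT7 p_LT8 p_LT9 n hn

end Pool.Agent.Results.MP_d4a4cd_co.ColumnTwo
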