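import Pool.Agent.Work.MP_d4a4cd_mean.B_TOT
import Pool.Agent.Work.MP_d4a4cd_mean.B_FST
import Pool.Agent.Work.MP_d4a4cd_mean.B_REC
import Pool.Agent.Work.MP_d4a4cd_mean.B_WRD
import Pool.Agent.Work.MP_d4a4cd_mean.B_WSU
import Pool.Agent.Work.MP_d4a4cd_mean.B_SUP
import Pool.Agent.Work.MP_d4a4cd_mean.B_LOW
import Pool.Agent.Work.MP_d4a4cd_mean.B_SUB
import Pool.Agent.Work.MP_d4a4cd_mean.B_EXB
import Pool.Agent.Work.MP_d4a4cd_mean.B_UPP
import Pool.Agent.Work.MP_d4a4cd_mean.B_BAS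
import Pool.Agent.Work.MP_d4a4cd_mean.B_LOG
import Pool.Agent.Work.MP_d4a4cd_mean.B_SUM
import Pool.Agent.Work.MP_d4a4cd_mean.B_FIN
import Pool.Agent.Work.MP_d4a4cd_mean.B_KWR
import Pool.Agent.Work.MP_d4a4cd_mean.B_KSTx
import Pool.Agent.Work.MP_d4a4cd_mean.B_UCB
import Pool.Agent.Work.MP_d4a4cd_mean.B_BB1
import Pool.Agent.Work.MP_d4a4cd_mean.B_SCD
import Pool.Agent.Work.MP_d4a4cd_mean.B_LLN

/-!
# MP_d4a4cd_co: the typical number of lucky cars of a Stirling permutation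

`a n k` is the number of Stirling permutations of order `n` with exactly `k` lucky cars
(definitions in `Pool/Agent/Work/MP_d4a4cd_co_h99/Defs.lean`).
-/

set_option autoImplicit false

namespace Pool.Agent.Results.MP_d4a4cd_co.LuckyLaw

open Finset
open Pool.Agent.LuckyStirling (a)
open Pool.Agent.LuckyMean

/-- Mean value with error term and law of large numbers for the number of lucky cars: the rows of
the triangle `a n k` are concentrated at `k = (1 - log 2) n`. -/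
theorem result :
    (∀ n : ℕ, ∑ k ∈ range (n + 1), a n k = ∏ i ∈ range n, (2 * i + 1)) ∧
    (∃ C : ℝ, ∀ n : ℕ, |(∑ k ∈ range (n + 1), (k : ℝ) * a n k) /
        (∑ k ∈ range (n + 1), (a n k : ℝ)) - (1 - Real.log 2) * n| ≤ C * Real.sqrt n) ∧
    ∀ δ : ℝ, 0 < δ → ∀ τ : ℝ, 0 < τ → ∃ N : ℕ, ∀ n : ℕ, N ≤ n →
      (∑ k ∈ (range (n + 1)).filter (fun k : ℕ => δ * n < |(k : ℝ) - (1 - Real.log 2) * n|),
        (a n k : ℝ)) ≤ τ * ∑ k ∈ range (n + 1), (a n k : ℝ) := by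
  have hWRD := p_WRD p_REC
  have hWSU := p_WSU hWRD
  have hSUM := p_SUM (p_LOW p_SUP) (p_UPP p_SUB p_EXB p_BAS) p_BAS p_LOG
  have hMAIN := p_FIN p_TOT p_FST hWSU hSUM
  have hUCB := p_UCB (p_KWR p_REC) (p_KSTx p_SUB) p_LOG
  have hSCD := p_SCD (p_BB1 hUCB) hSUM hWSU p_TOT
  exact ⟨p_TOT, hMAIN, p_LLN hMAIN hSCD⟩

end Pool.Agent.Results.MP_d4a4cd_co.LuckyLaw
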